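import Pool.Agent.QUD.StmtsX

/-! Row CVL of squad QUD. -/

set_option autoImplicit false

namespace Pool.Agent.QUD.H55

/-- the function of HCX -/
noncomputable def Fx (u : ℝ) : ℝ :=
  u * Real.cos (Real.pi / (2 * u)) / ((u - 1) * Real.sin (Real.pi / (2 * u)))

noncomputable def Ux (x : ℝ) : ℝ := Real.pi / (Real.pi - x)

theorem tan_eq_Fx {x : ℝ} (h0 : 0 < x) (h1 : x < Real.pi) :
    Real.pi * Real.tan (x / 2) = x * Fx (Ux x) := by
  have hp := Real.pi_pos
  have h2 : Real.pi - x ≠ 0 := by linarith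
  have h3 : Real.pi / (2 * (Real.pi / (Real.pi - x))) = Real.pi / 2 - x / 2 := by
    field_simp
  have h4 : Real.cos (x / 2) ≠ 0 := (Real.cos_pos_of_mem_Ioo ⟨by linarith, by linarith⟩).ne'
  have h5 : Real.pi / (Real.pi - x) - 1 = x / (Real.pi - x) := by
    field_simp
    ring
  unfold Fx Ux
  rw [h3, Real.cos_pi_div_two_sub, Real.sin_pi_div_two_sub, h5, Real.tan_eq_sin_div_cos]
  field_simp

theorem Gk_eq_Ux {x : ℝ} (h1 : x < Real.pi) : 6 * Gk x = x + x * Ux x := by
  have h2 : Real.pi - x ≠ 0 := by linarith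
  unfold Gk Ux
  field_simp
  ring

theorem Ux_lt {x y : ℝ} (hxy : x < y) (hy : y < Real.pi) : Ux x < Ux y := by
  unfold Ux
  exact div_lt_div_of_pos_left Real.pi_pos (by linarith) (by linarith)

theorem Ux_le {x y : ℝ} (hxy : x ≤ y) (hy : y < Real.pi) : Ux x ≤ Ux y := by
  unfold Ux
  exact div_le_div_of_nonneg_left Real.pi_pos.le (by linarith) (by linarith)

theorem one_lt_Ux {x : ℝ} (hx : 0 < x) (hy : x < Real.pi) : 1 < Ux x := by
  unfold Ux
  rw [one_lt_div (by linarith)]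
  linarith

/-- the case in which one of the numbers is larger than `a` -/
theorem caseA (hF : StrictConvexOn ℝ (Set.Ioi (1 : ℝ)) Fx) {a b : ℝ} {m : ℕ} {T : Finset (Fin m)}
    {x : Fin m → ℝ} (ha : 0 < a) (ha' : a < Real.pi) (hb : 0 < b) (hb' : b < Real.pi)
    (hx : ∀ k ∈ T, 0 < x k ∧ x k < Real.pi) (hs : ∑ k ∈ T, x k = a + b)
    (hU : ∑ k ∈ T, x k * Ux (x k) = a * Ux a + b * Ux b) (hab : b ≤ a)
    {k₀ : Fin m} (hk₀ : k₀ ∈ T) (hk : a < x k₀) :
    a * Fx (Ux a) + b * Fx (Ux b) < ∑ k ∈ T, x k * Fx (Ux (x k)) := by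
  classical
  have hsm : ∀ k ∈ T.erase k₀, x k < b := by
    intro k hkT
    have h1 : x k ≤ ∑ j ∈ T.erase k₀, x j :=
      Finset.single_le_sum (f := x) (fun j hj => (hx j (Finset.mem_of_mem_erase hj)).1.le) hkT
    have h2 : ∑ j ∈ T.erase k₀, x j + x k₀ = a + b := by
      rw [Finset.sum_erase_add _ _ hk₀, hs]
    linarith
  have hUb := one_lt_Ux hb hb'
  obtain ⟨u₁, hu₁, hu₁', hu₁''⟩ : ∃ u₁ : ℝ, 1 < u₁ ∧ u₁ < Ux b ∧
      ∀ k ∈ T.erase k₀, Ux (x k) ≤ u₁ := by
    set S : Finset ℝ := insert ((1 + Ux b) / 2) ((T.erase k₀).image fun k => Ux (x k)) with hS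
    have hne : S.Nonempty := Finset.insert_nonempty _ _
    have hall : ∀ e ∈ S, 1 < e ∧ e < Ux b := by
      intro e he
      rw [hS, Finset.mem_insert, Finset.mem_image] at he
      rcases he with rfl | ⟨k, hk1, rfl⟩
      · constructor <;> linarith
      · have h3 := hx k (Finset.mem_of_mem_erase hk1)
        exact ⟨one_lt_Ux h3.1 h3.2, Ux_lt (hsm k hk1) hb'⟩
    refine ⟨S.max' hne, (hall _ (S.max'_mem hne)).1, (hall _ (S.max'_mem hne)).2, ?_⟩
    intro k hk1
    refine S.le_max' _ ?_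
    rw [hS, Finset.mem_insert, Finset.mem_image]
    exact Or.inr ⟨k, hk1, rfl⟩
  set u₂ : ℝ := Ux (x k₀) with hu₂
  have hxk := hx k₀ hk₀
  have hab' : Ux b ≤ Ux a := Ux_le hab ha'
  have ha2 : Ux a < u₂ := Ux_lt hk hxk.2
  have h12 : 0 < u₂ - u₁ := by linarith
  set γ : ℝ := (Fx u₂ - Fx u₁) / (u₂ - u₁) with hγ
  have hγ' : γ * (u₂ - u₁) = Fx u₂ - Fx u₁ := by
    rw [hγ]
    field_simp
  have hlow : ∀ k ∈ T, Fx u₁ + γ * (Ux (x k) - u₁) ≤ Fx (Ux (x k)) := by
    intro k hkT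
    by_cases hkk : k = k₀
    · rw [hkk, ← hu₂, hγ']
      linarith
    · have h4 := hu₁'' k (Finset.mem_erase.mpr ⟨hkk, hkT⟩)
      rcases h4.lt_or_eq with h5 | h5
      · have h6 := hF.convexOn.slope_mono_adjacent
          (show Ux (x k) ∈ Set.Ioi (1 : ℝ) from one_lt_Ux (hx k hkT).1 (hx k hkT).2)
          (show u₂ ∈ Set.Ioi (1 : ℝ) from by
            show 1 < u₂
            linarith) h5 (show u₁ < u₂ by linarith)
        rw [← hγ, div_le_iff₀ (by linarith)] at h6
        linarith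
      · rw [h5]
        linarith
  have hup : ∀ u, u₁ < u → u < u₂ → Fx u < Fx u₁ + γ * (u - u₁) := by
    intro u h5 h6
    have h7 := hF.slope_strict_mono_adjacent (show u₁ ∈ Set.Ioi (1 : ℝ) from hu₁)
      (show u₂ ∈ Set.Ioi (1 : ℝ) from by
        show 1 < u₂
        linarith) h5 h6
    rw [div_lt_div_iff₀ (by linarith) (by linarith)] at h7
    have h8 : Fx u * (u₂ - u₁) < (Fx u₁ + γ * (u - u₁)) * (u₂ - u₁) := by
      have h9 : (Fx u₁ + γ * (u - u₁)) * (u₂ - u₁) =
          Fx u₁ * (u₂ - u₁) + (γ * (u₂ - u₁)) * (u - u₁) := by ring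
      rw [h9, hγ']
      linarith
    exact lt_of_mul_lt_mul_right h8 h12.le
  have h10 : ∑ k ∈ T, x k * (Fx u₁ + γ * (Ux (x k) - u₁)) ≤ ∑ k ∈ T, x k * Fx (Ux (x k)) :=
    Finset.sum_le_sum fun k hkT => mul_le_mul_of_nonneg_left (hlow k hkT) (hx k hkT).1.le
  have h11 : ∑ k ∈ T, x k * (Fx u₁ + γ * (Ux (x k) - u₁)) =
      (Fx u₁ - γ * u₁) * ∑ k ∈ T, x k + γ * ∑ k ∈ T, x k * Ux (x k) := by
    rw [Finset.mul_sum, Finset.mul_sum, ← Finset.sum_add_distrib]
    refine Finset.sum_congr rfl fun k _ => ?_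
    ring
  rw [h11, hs, hU] at h10
  have h12a := mul_lt_mul_of_pos_left (hup (Ux a) (by linarith) ha2) ha
  have h12b := mul_lt_mul_of_pos_left (hup (Ux b) hu₁' (by linarith)) hb
  linarith

/-- the case in which no number is larger than `a` -/
theorem caseB {a b : ℝ} {m : ℕ} {T : Finset (Fin m)}
    {x : Fin m → ℝ} (ha' : a < Real.pi) (hb : 0 < b)
    (hx : ∀ k ∈ T, 0 < x k ∧ x k ≤ a) (hs : ∑ k ∈ T, x k = a + b)
    (hU : ∑ k ∈ T, x k * Ux (x k) = a * Ux a + b * Ux b) (hab : b ≤ a) : T.card = 2 := by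
  classical
  have hp := Real.pi_pos
  set M : Fin m → ℝ := fun k => if b < x k then x k - b else 0 with hM
  set σ : ℝ := Real.pi ^ 2 / ((Real.pi - a) * (Real.pi - b)) with hσ
  have hpa : 0 < Real.pi - a := by linarith
  have hpb : 0 < Real.pi - b := by linarith
  have hσU : 0 < σ - Ux b := by
    rw [hσ]
    unfold Ux
    have : Real.pi ^ 2 / ((Real.pi - a) * (Real.pi - b)) - Real.pi / (Real.pi - b) =
        Real.pi * a / ((Real.pi - a) * (Real.pi - b)) := by
      field_simp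
      ring
    rw [this]
    have ha : 0 < a := by linarith
    positivity
  -- the inequality for one number
  have hone : ∀ k ∈ T, x k * Ux (x k) ≤ Ux b * x k + (σ - Ux b) * M k ∧
      (x k * Ux (x k) = Ux b * x k + (σ - Ux b) * M k → b ≤ x k) := by
    intro k hkT
    obtain ⟨h1, h2⟩ := hx k hkT
    have hpx : 0 < Real.pi - x k := by linarith
    by_cases hbk : b < x k
    · have hMk : M k = x k - b := by
        rw [hM]
        simp only [if_pos hbk]
      rw [hMk]
      refine ⟨?_, fun _ => hbk.le⟩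
      have : Ux b * x k + (σ - Ux b) * (x k - b) - x k * Ux (x k) =
          Real.pi ^ 2 * (x k - b) * (a - x k) /
            ((Real.pi - a) * (Real.pi - b) * (Real.pi - x k)) := by
        rw [hσ]
        unfold Ux
        field_simp
        ring
      have h3 : 0 ≤ Real.pi ^ 2 * (x k - b) * (a - x k) /
            ((Real.pi - a) * (Real.pi - b) * (Real.pi - x k)) := by
        have h4 : 0 ≤ x k - b := by linarith
        have h5 : 0 ≤ a - x k := by linarith
        positivity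
      linarith
    · have hMk : M k = 0 := by
        rw [hM]
        simp only [if_neg hbk]
      rw [hMk]
      push Not at hbk
      have h3 := Ux_le hbk (show b < Real.pi by linarith)
      refine ⟨?_, ?_⟩
      · nlinarith
      · intro h4
        by_contra h5
        push Not at h5
        have h6 := Ux_lt h5 (show b < Real.pi by linarith)
        have h7 := mul_lt_mul_of_pos_left h6 h1
        linarith
  -- the sum of the excesses
  have hMsum : ∑ k ∈ T, M k ≤ a - b := by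
    have h1 : ∑ k ∈ T, M k = ∑ k ∈ T.filter fun k => b < x k, (x k - b) := by
      rw [Finset.sum_filter]
    rw [h1]
    set P := T.filter fun k => b < x k with hP
    rcases Nat.lt_or_ge P.card 2 with h2 | h2
    · interval_cases h3 : P.card
      · rw [Finset.card_eq_zero] at h3
        rw [h3]
        simpa using hab
      · obtain ⟨k₁, hk₁⟩ := Finset.card_eq_one.mp h3
        have h4 : k₁ ∈ P := by rw [hk₁]; simp
        have h5 := (hx k₁ (Finset.mem_filter.mp h4).1).2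
        rw [hk₁, Finset.sum_singleton]
        linarith
    · rw [Finset.sum_sub_distrib, Finset.sum_const, nsmul_eq_mul]
      have h3 : ∑ k ∈ P, x k ≤ ∑ k ∈ T, x k :=
        Finset.sum_le_sum_of_subset_of_nonneg (Finset.filter_subset _ _)
          fun k hk _ => (hx k hk).1.le
      have h4 : (2 : ℝ) ≤ P.card := by exact_mod_cast h2
      have h5 : 2 * b ≤ P.card * b := mul_le_mul_of_nonneg_right h4 hb.le
      linarith
  have hGab : a * Ux a + b * Ux b = Ux b * (a + b) + (σ - Ux b) * (a - b) := by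
    rw [hσ]
    unfold Ux
    field_simp
    ring
  have htot : ∑ k ∈ T, (Ux b * x k + (σ - Ux b) * M k - x k * Ux (x k)) +
      (σ - Ux b) * (a - b - ∑ k ∈ T, M k) = 0 := by
    rw [Finset.sum_sub_distrib, Finset.sum_add_distrib, ← Finset.mul_sum, ← Finset.mul_sum, hs, hU,
      hGab]
    ring
  have hnn : ∀ k ∈ T, 0 ≤ Ux b * x k + (σ - Ux b) * M k - x k * Ux (x k) := by
    intro k hkT
    have := (hone k hkT).1
    linarith
  have h0 : 0 ≤ ∑ k ∈ T, (Ux b * x k + (σ - Ux b) * M k - x k * Ux (x k)) :=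
    Finset.sum_nonneg hnn
  have h0' : 0 ≤ (σ - Ux b) * (a - b - ∑ k ∈ T, M k) :=
    mul_nonneg hσU.le (by linarith)
  have hz : ∑ k ∈ T, (Ux b * x k + (σ - Ux b) * M k - x k * Ux (x k)) = 0 := by linarith
  have hz' : (σ - Ux b) * (a - b - ∑ k ∈ T, M k) = 0 := by linarith
  have hMeq : ∑ k ∈ T, M k = a - b := by
    rcases mul_eq_zero.mp hz' with h | h
    · exact absurd h hσU.ne'
    · linarith
  rw [Finset.sum_eq_zero_iff_of_nonneg hnn] at hz
  have hge : ∀ k ∈ T, b ≤ x k := by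
    intro k hkT
    refine (hone k hkT).2 ?_
    have := hz k hkT
    linarith
  have hMx : ∀ k ∈ T, M k = x k - b := by
    intro k hkT
    rw [hM]
    simp only
    split_ifs with h
    · rfl
    · have := hge k hkT
      push Not at h
      linarith
  rw [Finset.sum_congr rfl hMx, Finset.sum_sub_distrib, hs, Finset.sum_const, nsmul_eq_mul] at hMeq
  have h20 : (T.card : ℝ) * b = 2 * b := by linarith
  have h21 : (T.card : ℝ) = 2 := mul_right_cancel₀ hb.ne' h20
  exact_mod_cast h21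

theorem cvl_aux (hF : StrictConvexOn ℝ (Set.Ioi (1 : ℝ)) Fx) {a b : ℝ} {m : ℕ}
    {T : Finset (Fin m)} {x : Fin m → ℝ} (ha : 0 < a) (ha' : a < Real.pi) (hb : 0 < b)
    (hb' : b < Real.pi) (hx : ∀ k ∈ T, 0 < x k ∧ x k < Real.pi) (hs : ∑ k ∈ T, x k = a + b)
    (hG : ∑ k ∈ T, Gk (x k) = Gk a + Gk b)
    (ht : ∑ k ∈ T, Real.tan (x k / 2) ≤ Real.tan (a / 2) + Real.tan (b / 2)) (hab : b ≤ a) :
    T.card = 2 := by
  have hU : ∑ k ∈ T, x k * Ux (x k) = a * Ux a + b * Ux b := by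
    have h1 : ∑ k ∈ T, 6 * Gk (x k) = ∑ k ∈ T, (x k + x k * Ux (x k)) :=
      Finset.sum_congr rfl fun k hk => Gk_eq_Ux (hx k hk).2
    rw [← Finset.mul_sum, hG, Finset.sum_add_distrib, hs] at h1
    have h2 := Gk_eq_Ux ha'
    have h3 := Gk_eq_Ux hb'
    linarith
  by_cases hall : ∀ k ∈ T, x k ≤ a
  · exact caseB ha' hb (fun k hk => ⟨(hx k hk).1, hall k hk⟩) hs hU hab
  · exfalso
    push Not at hall
    obtain ⟨k₀, hk₀, hk⟩ := hall
    have h1 := caseA hF ha ha' hb hb' hx hs hU hab hk₀ hk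
    have h2 : ∑ k ∈ T, Real.pi * Real.tan (x k / 2) = ∑ k ∈ T, x k * Fx (Ux (x k)) :=
      Finset.sum_congr rfl fun k hk => tan_eq_Fx (hx k hk).1 (hx k hk).2
    rw [← Finset.mul_sum] at h2
    have h3 := mul_le_mul_of_nonneg_left ht Real.pi_pos.le
    rw [h2, mul_add, tan_eq_Fx ha ha', tan_eq_Fx hb hb'] at h3
    linarith

theorem cvl (hHCX : HcxStmt) : Pool.Agent.QUD.CvlStmt := by
  intro a b m T x ha ha' hb hb' hx hs hG ht
  have hF : StrictConvexOn ℝ (Set.Ioi (1 : ℝ)) Fx := hHCX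
  rcases le_total b a with h | h
  · exact cvl_aux hF ha ha' hb hb' hx hs hG ht h
  · exact cvl_aux hF hb hb' ha ha' hx (by rw [hs, add_comm]) (by rw [hG, add_comm])
      (by rw [add_comm]; exact ht) h

end Pool.Agent.QUD.H55
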