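import Pool.Agent.QUD.StmtsX
import Pool.Agent.Helper5_PM.M091

/-! Row N4E of squad QUD. -/

set_option autoImplicit false

namespace Pool.Agent.QUD.H55

open Complex Pool.Agent.H16Iso Pool.Agent.H62T
open Pool.Agent.H16F (Nm CP len qa AlgStatement)
open Pool.Agent.H16F.H69 (vx)

theorem sin_half (b : ℝ) (hb : 0 < b) (hb' : b < Real.pi) :
    Real.sin b = 2 * Real.tan (b / 2) / (1 + Real.tan (b / 2) ^ 2) ∧
      Real.cos b = (1 - Real.tan (b / 2) ^ 2) / (1 + Real.tan (b / 2) ^ 2) ∧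
      0 < Real.tan (b / 2) := by
  have hc : 0 < Real.cos (b / 2) :=
    Real.cos_pos_of_mem_Ioo ⟨by linarith, by linarith⟩
  have hp : 0 < Real.tan (b / 2) := Real.tan_pos_of_pos_of_lt_pi_div_two (by linarith) (by linarith)
  have h1 : Real.sin b = 2 * Real.sin (b / 2) * Real.cos (b / 2) := by
    rw [← Real.sin_two_mul]
    ring_nf
  have h2 : Real.cos b = 2 * Real.cos (b / 2) ^ 2 - 1 := by
    rw [← Real.cos_two_mul]
    ring_nf
  have h3 := Real.sin_sq_add_cos_sq (b / 2)
  have h4 : 1 + Real.tan (b / 2) ^ 2 = 1 / Real.cos (b / 2) ^ 2 := by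
    rw [Real.tan_eq_sin_div_cos]
    field_simp
    linarith
  refine ⟨?_, ?_, hp⟩
  · rw [h4, h1, Real.tan_eq_sin_div_cos]
    field_simp
  · rw [h4, h2, Real.tan_eq_sin_div_cos]
    field_simp
    linarith

theorem sum_four (i : Fin 4) (f : Fin 4 → ℝ) :
    ∑ j, f j = f i + f (i + 1) + f (i + 2) + f (i + 3) := by
  fin_cases i <;> simp [Fin.sum_univ_four] <;> ring

theorem tan_add_aux (A B : ℝ) (hA : Real.cos A ≠ 0) (hB : Real.cos B ≠ 0)
    (hAB : Real.cos (A + B) ≠ 0) :
    Real.tan (A + B) * (1 - Real.tan A * Real.tan B) = Real.tan A + Real.tan B := by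
  have h1 : Real.cos A * Real.cos B - Real.sin A * Real.sin B ≠ 0 := by
    rw [← Real.cos_add]
    exact hAB
  have h2 : Real.cos B * Real.cos A - Real.sin A * Real.sin B ≠ 0 := by
    rw [mul_comm (Real.cos B)]
    exact h1
  rw [Real.tan_eq_sin_div_cos, Real.tan_eq_sin_div_cos, Real.tan_eq_sin_div_cos, Real.sin_add,
    Real.cos_add]
  field_simp

theorem sd4 : ∀ i : Fin 4, (Finset.univ \ {i + 3, i} : Finset (Fin 4)) = {i + 1, i + 2} := by
  decide

/-- the algebraic identity -/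
theorem key4 (b b' c d p q l x y z t T : ℝ) (hb : 0 < b) (hbp : b < Real.pi) (hb' : 0 < b')
    (hbp' : b' < Real.pi) (hbb : b + b' < Real.pi) (hd : 0 < d) (hdp : d < Real.pi) (_hc : 0 < c)
    (hcp : c < Real.pi) (hsum : b' + c + d + b = 2 * Real.pi) (hx : x = Real.tan (b / 2))
    (hy : y = Real.tan (b' / 2)) (hz : z = Real.tan (d / 2)) (ht : t = Real.tan (c / 2))
    (hT : T = Real.tan ((b + b') / 2))
    (hl : l = (q - p * Real.cos b) / Real.sin b + (0 - p * Real.cos b') / Real.sin b') :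
    4 * ((H16F.q b' p 0 + H16F.q c 0 0 + H16F.q d 0 q + H16F.q b q p) + sx b b' l * l / 2) *
        (T + (t + z)) =
      (p * (x + y) + 0 * (y + t) + 0 * (t + z) + q * (z + x) + sx b b' l * mx b b') ^ 2 := by
  have hpi := Real.pi_pos
  obtain ⟨s1, c1, x0⟩ := sin_half b hb hbp
  obtain ⟨s2, c2, y0⟩ := sin_half b' hb' hbp'
  obtain ⟨s3, c3, z0⟩ := sin_half d hd hdp
  rw [← hx] at s1 c1 x0
  rw [← hy] at s2 c2 y0
  rw [← hz] at s3 c3 z0
  have ca : Real.cos (b / 2) ≠ 0 := (Real.cos_pos_of_mem_Ioo ⟨by linarith, by linarith⟩).ne'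
  have cb : Real.cos (b' / 2) ≠ 0 := (Real.cos_pos_of_mem_Ioo ⟨by linarith, by linarith⟩).ne'
  have cd : Real.cos (d / 2) ≠ 0 := (Real.cos_pos_of_mem_Ioo ⟨by linarith, by linarith⟩).ne'
  have cab : 0 < Real.cos (b / 2 + b' / 2) :=
    Real.cos_pos_of_mem_Ioo ⟨by linarith, by linarith⟩
  have hT1 : T * (1 - x * y) = x + y := by
    have h := tan_add_aux (b / 2) (b' / 2) ca cb cab.ne'
    rw [← hx, ← hy, ← add_div, ← hT] at h
    exact h
  have hT0 : 0 < T := by
    rw [hT]
    exact Real.tan_pos_of_pos_of_lt_pi_div_two (by linarith) (by linarith)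
  have hxy : 0 < 1 - x * y := by
    have h1 : 0 < T * (1 - x * y) := by rw [hT1]; positivity
    exact (pos_iff_pos_of_mul_pos h1).1 hT0
  have ht1 : t * (T * z - 1) = T + z := by
    have e : (b + b') / 2 + d / 2 = Real.pi - c / 2 := by linarith
    have hcc : 0 < Real.cos (c / 2) := Real.cos_pos_of_mem_Ioo ⟨by linarith, by linarith⟩
    have h := tan_add_aux ((b + b') / 2) (d / 2) (by rw [add_div]; exact cab.ne') cd
      (by rw [e, Real.cos_pi_sub]; exact neg_ne_zero.mpr hcc.ne')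
    rw [e, Real.tan_pi_sub, ← hT, ← hz, ← ht] at h
    linarith
  have hs0 : Real.sin (b + b') = 2 * (x + y) * (1 - x * y) / ((1 + x ^ 2) * (1 + y ^ 2)) := by
    rw [Real.sin_add, s1, c1, s2, c2]
    field_simp
    ring
  have hTe : T = (x + y) / (1 - x * y) := by
    rw [eq_div_iff hxy.ne']
    exact hT1
  have hxy' : x + y ≠ 0 := by positivity
  have hxy1 : 1 - x * y ≠ 0 := hxy.ne'
  have hxy2 : 1 - y * x ≠ 0 := by rw [mul_comm]; exact hxy1
  have hs : sx b b' l = l * (2 * x * y / ((x + y) * (1 - x * y))) := by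
    unfold sx
    rw [s1, s2, hs0]
    field_simp
  have hl' : l = q * (1 + x ^ 2) / (2 * x) - p * ((x + y) * (1 - x * y) / (2 * x * y)) := by
    rw [hl, s1, s2, c1, c2]
    field_simp
    ring
  have hA : (H16F.q b' p 0 + H16F.q c 0 0 + H16F.q d 0 q + H16F.q b q p) + sx b b' l * l / 2 =
      q ^ 2 / 4 * ((T + z) * (T * z - 1) / (z * T)) := by
    rw [hs, hl', hTe]
    unfold H16F.q
    rw [s1, s2, s3, c1, c2, c3]
    field_simp
    ring
  have hP : p * (x + y) + 0 * (y + t) + 0 * (t + z) + q * (z + x) + sx b b' l * mx b b' =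
      q * (z + T) := by
    have hm : mx b b' = x + y := by
      unfold mx
      rw [← hx, ← hy]
    rw [hs, hl', hTe, hm]
    field_simp
    ring
  rw [hA, hP]
  have h3 : T + (t + z) = T * t * z := by linarith
  rw [h3]
  field_simp
  linear_combination q ^ 2 * (T + z) * ht1

theorem n4e (hALG : AlgStatement) : Pool.Agent.QUD.N4eStmt := by
  intro u H β hcp i hbb
  have hN : Nm u β := hcp.toNm
  obtain ⟨-, a2, a3, a4, a5, -⟩ := hALG 4 u β hN
  set w : ℂ := vx u H β (i + 1 + 1) with hw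
  set H' : Fin 4 → ℝ := fun j => H j - ip (u j) w with hH'
  have hlen : ∀ j, len β H' j = len β H j := fun j => a4 H w j
  have hqa : qa β H' = qa β H := by
    rw [a2 H', a2 H]
    congr 1
    have h1 : ∑ j, len β H' j * H' j = ∑ j, (len β H j * H j - len β H j * ip (u j) w) := by
      refine Finset.sum_congr rfl fun j _ => ?_
      rw [hlen j, hH']
      ring
    rw [h1, Finset.sum_sub_distrib]
    have h2 : ∑ j, len β H j * ip (u j) w = ip (∑ j, (len β H j : ℂ) * u j) w := by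
      unfold ip
      rw [Complex.re_sum, Complex.im_sum, Finset.sum_mul, Finset.sum_mul, ← Finset.sum_add_distrib]
      refine Finset.sum_congr rfl fun j _ => ?_
      simp only [mul_re, mul_im, ofReal_re, ofReal_im]
      ring
    rw [h2, a5 H]
    unfold ip
    simp
  have e2 : i + 1 + 1 = i + 2 := by
    rw [add_assoc]
    rfl
  have e3 : i - 1 = i + 3 := by
    fin_cases i <;> rfl
  have e4 : i + 2 + 1 = i + 3 := by
    rw [add_assoc]
    rfl
  have e5 : i + 3 + 1 = i := by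
    fin_cases i <;> rfl
  have e6 : i + 1 - 1 = i := by
    fin_cases i <;> rfl
  have e7 : i + 2 - 1 = i + 1 := by
    fin_cases i <;> rfl
  have e8 : i + 3 - 1 = i + 2 := by
    fin_cases i <;> rfl
  have z1 : H' (i + 1) = 0 := by
    have := Pool.Agent.H16F.H69.ip_vx_succ hN H (i + 1)
    rw [hH']
    simp only
    rw [hw, this]
    ring
  have z2 : H' (i + 2) = 0 := by
    have := Pool.Agent.H16F.H69.ip_vx hN H (i + 1 + 1)
    rw [hH']
    simp only
    rw [e2] at this
    rw [hw, e2, this]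
    ring
  have hsum := hN.sum
  rw [sum_four i] at hsum
  rw [← hqa, ← hlen i]
  have h3 : ∑ j, len β H j = ∑ j, len β H' j := Finset.sum_congr rfl fun j _ => (hlen j).symm
  rw [h3, a3 H']
  rw [sum_four i]
  rw [e3] at hbb ⊢
  rw [e6, e7, e8, z1, z2]
  have hTx : Tx β i = Real.tan ((β (i + 3) + β i) / 2) +
      (Real.tan (β (i + 1) / 2) + Real.tan (β (i + 2) / 2)) := by
    unfold Tx
    rw [e3]
    congr 1
    rw [sd4 i, Finset.sum_pair]
    fin_cases i <;> decide
  rw [hTx]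
  have hq : qa β H' = H16F.q (β i) (H' i) 0 + H16F.q (β (i + 1)) 0 0 +
      H16F.q (β (i + 2)) 0 (H' (i + 3)) + H16F.q (β (i + 3)) (H' (i + 3)) (H' i) := by
    unfold qa
    rw [sum_four i, z1, e2, z2, e4, e5]
  rw [hq]
  refine key4 (β (i + 3)) (β i) (β (i + 1)) (β (i + 2)) (H' i) (H' (i + 3)) (len β H' i)
    _ _ _ _ _ (hN.pos _) (hN.lt _) (hN.pos _) (hN.lt _) hbb (hN.pos _) (hN.lt _) (hN.pos _)
    (hN.lt _) hsum rfl rfl rfl rfl rfl ?_
  unfold len
  rw [e3, z1]

end Pool.Agent.QUD.H55
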