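import Pool.Agent.QUD.StmtsR

/-! Row TQC of squad QUD. -/

set_option autoImplicit false

namespace Pool.Agent.QUD.H55

open Pool.Agent.QUD Complex
open Pool.Agent.H1Gen (det CCW poly)

theorem conj_mul_eq {e x e' x' : ℂ} (h1 : sp e x = sp e' x') (h2 : det e x = det e' x') :
    (starRingEnd ℂ) e * x = (starRingEnd ℂ) e' * x' := by
  unfold sp at h1
  unfold det at h2
  apply Complex.ext
  · simp only [Complex.mul_re, Complex.conj_re, Complex.conj_im]
    linarith
  · simp only [Complex.mul_im, Complex.conj_re, Complex.conj_im]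
    linarith

theorem rot_eq {e x e' x' : ℂ} (he : e ≠ 0) (he' : e' ≠ 0)
    (h : (starRingEnd ℂ) e * x = (starRingEnd ℂ) e' * x')
    (h0 : (starRingEnd ℂ) e * e = (starRingEnd ℂ) e' * e') : x = e / e' * x' := by
  have hc : (starRingEnd ℂ) e ≠ 0 := by
    rw [Ne, map_eq_zero]
    exact he
  have h1 : (starRingEnd ℂ) e * (x * e') = (starRingEnd ℂ) e * (e * x') := by
    calc (starRingEnd ℂ) e * (x * e') = ((starRingEnd ℂ) e * x) * e' := by ring
      _ = ((starRingEnd ℂ) e' * e') * x' := by rw [h]; ring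
      _ = (starRingEnd ℂ) e * (e * x') := by rw [← h0]; ring
  have h2 := mul_left_cancel₀ hc h1
  field_simp
  exact h2

theorem sp_self (z : ℂ) : sp z z = ‖z‖ ^ 2 := by
  rw [Complex.sq_norm, Complex.normSq_apply]
  rfl

/-- **TQC** -/
theorem tqc (h1 : AngStmt) : TqcStmt := by
  intro v w hv hw han hen
  have dv : 0 < det (v 2 - v 0) (v 3 - v 0) := hv 0 2 3 (by decide) (by decide)
  have dw : 0 < det (w 2 - w 0) (w 3 - w 0) := hw 0 2 3 (by decide) (by decide)
  obtain ⟨-, -, -, a1, a2⟩ := h1 v hv 1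
  obtain ⟨-, -, -, b1, b2⟩ := h1 w hw 1
  have i13 : (1 + 3 : Fin 4) = 0 := rfl
  have i11 : (1 + 1 : Fin 4) = 2 := rfl
  rw [i13, i11] at a1 a2 b1 b2
  rw [hen 1, hen 0, han, ← b1] at a1
  rw [hen 1, hen 0, han, ← b2] at a2
  have n0 : sp (v 1 - v 0) (v 1 - v 0) = sp (w 1 - w 0) (w 1 - w 0) := by
    rw [sp_self, sp_self]
    have := hen 0
    unfold en at this
    rw [show (0 + 1 : Fin 4) = 1 from rfl] at this
    rw [this]
  have n1 : sp (v 2 - v 1) (v 2 - v 1) = sp (w 2 - w 1) (w 2 - w 1) := by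
    rw [sp_self, sp_self]
    have := hen 1
    unfold en at this
    rw [show (1 + 1 : Fin 4) = 2 from rfl] at this
    rw [this]
  have n2 : sp (v 3 - v 2) (v 3 - v 2) = sp (w 3 - w 2) (w 3 - w 2) := by
    rw [sp_self, sp_self]
    have := hen 2
    unfold en at this
    rw [show (2 + 1 : Fin 4) = 3 from rfl] at this
    rw [this]
  have n3 : sp (v 0 - v 3) (v 0 - v 3) = sp (w 0 - w 3) (w 0 - w 3) := by
    rw [sp_self, sp_self]
    have := hen 3
    unfold en at this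
    rw [show (3 + 1 : Fin 4) = 0 from rfl] at this
    rw [this]
  -- identities
  have key1 : ∀ u : Fin 4 → ℂ, sp (u 2 - u 0) (u 2 - u 0) = sp (u 2 - u 1) (u 2 - u 1) +
      sp (u 1 - u 0) (u 1 - u 0) - 2 * sp (u 2 - u 1) (u 0 - u 1) := by
    intro u
    simp only [sp, Complex.sub_re, Complex.sub_im]
    ring
  have key2 : ∀ u : Fin 4 → ℂ, sp (u 2 - u 0) (u 3 - u 0) = (sp (u 2 - u 0) (u 2 - u 0) +
      sp (u 0 - u 3) (u 0 - u 3) - sp (u 3 - u 2) (u 3 - u 2)) / 2 := by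
    intro u
    simp only [sp, Complex.sub_re, Complex.sub_im]
    ring
  have key3 : ∀ u : Fin 4 → ℂ, det (u 2 - u 0) (u 3 - u 0) ^ 2 =
      sp (u 2 - u 0) (u 2 - u 0) * sp (u 0 - u 3) (u 0 - u 3) - sp (u 2 - u 0) (u 3 - u 0) ^ 2 := by
    intro u
    simp only [sp, det, Complex.sub_re, Complex.sub_im]
    ring
  have key4 : ∀ u : Fin 4 → ℂ, det (u 2 - u 0) (u 0 - u 1) = det (u 2 - u 1) (u 0 - u 1) := by
    intro u
    simp only [det, Complex.sub_re, Complex.sub_im]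
    ring
  have key5 : ∀ u : Fin 4 → ℂ, sp (u 2 - u 0) (u 0 - u 1) = sp (u 2 - u 1) (u 0 - u 1) -
      sp (u 1 - u 0) (u 1 - u 0) := by
    intro u
    simp only [sp, Complex.sub_re, Complex.sub_im]
    ring
  have m1 : sp (v 2 - v 0) (v 2 - v 0) = sp (w 2 - w 0) (w 2 - w 0) := by
    rw [key1 v, key1 w, n0, n1, a1]
  have m2 : sp (v 2 - v 0) (v 3 - v 0) = sp (w 2 - w 0) (w 3 - w 0) := by
    rw [key2 v, key2 w, m1, n3, n2]
  have m3 : det (v 2 - v 0) (v 3 - v 0) = det (w 2 - w 0) (w 3 - w 0) := by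
    have h := key3 v
    rw [m1, n3, m2, ← key3 w] at h
    exact (pow_left_inj₀ dv.le dw.le two_ne_zero).mp h
  have m4 : det (v 2 - v 0) (v 0 - v 1) = det (w 2 - w 0) (w 0 - w 1) := by
    rw [key4 v, key4 w, a2]
  have m5 : sp (v 2 - v 0) (v 0 - v 1) = sp (w 2 - w 0) (w 0 - w 1) := by
    rw [key5 v, key5 w, a1, n0]
  have ev : v 2 - v 0 ≠ 0 := by
    intro h
    rw [h] at dv
    simp [det] at dv
  have ew : w 2 - w 0 ≠ 0 := by
    intro h
    rw [h] at dw
    simp [det] at dw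
  have c0 : (starRingEnd ℂ) (v 2 - v 0) * (v 2 - v 0) =
      (starRingEnd ℂ) (w 2 - w 0) * (w 2 - w 0) := by
    apply conj_mul_eq m1
    simp only [det]
    ring
  have r3 := rot_eq ev ew (conj_mul_eq m2 m3) c0
  have r1 := rot_eq ev ew (conj_mul_eq m5 m4) c0
  have r2 : v 2 - v 0 = (v 2 - v 0) / (w 2 - w 0) * (w 2 - w 0) := by
    field_simp
  set ω : ℂ := (v 2 - v 0) / (w 2 - w 0) with hω
  refine ⟨ω, v 0 - ω * w 0, ?_, ?_⟩
  · rw [hω, norm_div]
    have h : ‖v 2 - v 0‖ ^ 2 = ‖w 2 - w 0‖ ^ 2 := by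
      rw [← sp_self, ← sp_self, m1]
    rw [(pow_left_inj₀ (norm_nonneg _) (norm_nonneg _) two_ne_zero).mp h]
    exact div_self (norm_ne_zero_iff.mpr ew)
  · intro i
    fin_cases i
    · simp only [Fin.zero_eta, Fin.mk_one, Fin.reduceFinMk]
      ring
    · simp only [Fin.zero_eta, Fin.mk_one, Fin.reduceFinMk]
      linear_combination -r1
    · simp only [Fin.zero_eta, Fin.mk_one, Fin.reduceFinMk]
      linear_combination r2
    · simp only [Fin.zero_eta, Fin.mk_one, Fin.reduceFinMk]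
      linear_combination r3

end Pool.Agent.QUD.H55
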