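import Pool.Agent.QUD.StmtsR

/-! Row WED of squad QUD. -/

set_option autoImplicit false

namespace Pool.Agent.QUD.H55

open Pool.Agent.QUD

/-- **WED** -/
theorem wed : WedStmt := by
  intro g q0 q1 r0 r1 _ _ h0 h1 k0 k1 hP heq
  have hc : 2 * q0 * q1 * Real.cos g = 2 * r0 * r1 * Real.cos g := by
    rw [mul_assoc 2 q0 q1, mul_assoc 2 r0 r1, hP]
  have hs : q0 + q1 = r0 + r1 := by
    rcases lt_trichotomy (q0 + q1) (r0 + r1) with h | h | h
    · exfalso
      have h2 : Real.sqrt (q0 ^ 2 + q1 ^ 2 - 2 * q0 * q1 * Real.cos g) ≤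
          Real.sqrt (r0 ^ 2 + r1 ^ 2 - 2 * r0 * r1 * Real.cos g) := by
        apply Real.sqrt_le_sqrt
        nlinarith
      linarith
    · exact h
    · exfalso
      have h2 : Real.sqrt (r0 ^ 2 + r1 ^ 2 - 2 * r0 * r1 * Real.cos g) ≤
          Real.sqrt (q0 ^ 2 + q1 ^ 2 - 2 * q0 * q1 * Real.cos g) := by
        apply Real.sqrt_le_sqrt
        nlinarith
      linarith
  have h3 : (q0 - r0) * (q0 - r1) = 0 := by
    have h4 : q1 = r0 + r1 - q0 := by linarith
    rw [h4] at hP
    linarith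
  rcases mul_eq_zero.mp h3 with h4 | h4
  · left
    constructor <;> linarith
  · right
    constructor <;> linarith

end Pool.Agent.QUD.H55
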